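import Pool.Agent.H174.GP.StE

set_option autoImplicit false

/-! # Reflection principle for plus-minus paths -/

namespace Pool.Agent.H874.GP174

open Finset

/-- the end point -/
def En {n : ℕ} (ε : Fin n → Bool) : ℤ := ∑ i, (if ε i then (1 : ℤ) else -1)

/-- the position at time `l` -/
def St {n : ℕ} (ε : Fin n → Bool) (l : ℕ) : ℤ :=
  ∑ i ∈ univ.filter (fun i : Fin n => (i : ℕ) < l), (if ε i then (1 : ℤ) else -1)

theorem En_cons {n : ℕ} (b : Bool) (ε : Fin n → Bool) :
    En (Fin.cons b ε : Fin (n + 1) → Bool) = (if b then 1 else -1) + En ε := by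
  unfold En
  rw [Fin.sum_univ_succ]
  simp

theorem St_zero {n : ℕ} (ε : Fin n → Bool) : St ε 0 = 0 := by
  unfold St
  rw [sum_filter]
  simp

theorem St_cons {n : ℕ} (b : Bool) (ε : Fin n → Bool) (l : ℕ) :
    St (Fin.cons b ε : Fin (n + 1) → Bool) (l + 1) = (if b then 1 else -1) + St ε l := by
  unfold St
  rw [sum_filter, sum_filter, Fin.sum_univ_succ]
  simp

theorem card_cons (n : ℕ) (P : (Fin (n + 1) → Bool) → Prop) [DecidablePred P] :
    (univ.filter P).card = (univ.filter (fun ε : Fin n → Bool => P (Fin.cons true ε))).card +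
      (univ.filter (fun ε : Fin n → Bool => P (Fin.cons false ε))).card := by
  rw [card_filter, card_filter, card_filter,
    ← (Fin.consEquiv (fun _ : Fin (n + 1) => Bool)).sum_comp, Fintype.sum_prod_type,
    Fintype.sum_bool]
  rfl

/-- number of the paths ending at `k` -/
def N (n : ℕ) (k : ℤ) : ℕ := (univ.filter (fun ε : Fin n → Bool => En ε = k)).card

theorem N_zero (k : ℤ) : N 0 k = if k = 0 then 1 else 0 := by
  unfold N
  have h : ∀ ε : Fin 0 → Bool, En ε = 0 := fun ε => by simp [En]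
  by_cases hk : k = 0
  · subst hk
    rw [if_pos rfl, filter_true_of_mem fun ε _ => h ε]
    rfl
  · rw [if_neg hk, filter_false_of_mem fun ε _ => by rw [h ε]; exact fun h => hk h.symm]
    rfl

theorem N_succ (n : ℕ) (k : ℤ) : N (n + 1) k = N n (k - 1) + N n (k + 1) := by
  unfold N
  rw [card_cons]
  congr 1
  · refine congrArg card (filter_congr fun ε _ => ?_)
    rw [En_cons, if_pos rfl]
    constructor <;> intro h <;> linarith
  · refine congrArg card (filter_congr fun ε _ => ?_)
    rw [En_cons, if_neg Bool.false_ne_true]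
    constructor <;> intro h <;> linarith

theorem N_neg (n : ℕ) : ∀ k : ℤ, N n (-k) = N n k := by
  induction n with
  | zero =>
    intro k
    rw [N_zero, N_zero]
    simp
  | succ n ih =>
    intro k
    rw [N_succ, N_succ]
    have h1 : -k - 1 = -(k + 1) := by ring
    have h2 : -k + 1 = -(k - 1) := by ring
    rw [h1, h2, ih, ih, add_comm]

theorem N_low (n : ℕ) : ∀ k : ℤ, k < -n → N n k = 0 := by
  induction n with
  | zero =>
    intro k hk
    rw [N_zero, if_neg]
    simp at hk
    omega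
  | succ n ih =>
    intro k hk
    push_cast at hk
    rw [N_succ, ih _ (by omega), ih _ (by omega)]

theorem N_choose (n : ℕ) : ∀ m : ℕ, N n (2 * m - n) = n.choose m := by
  induction n with
  | zero =>
    intro m
    rw [N_zero]
    cases m with
    | zero => simp
    | succ m =>
      rw [if_neg (by push_cast; omega), Nat.choose_zero_succ]
  | succ n ih =>
    intro m
    rw [N_succ]
    cases m with
    | zero =>
      have h1 : N n (2 * ((0 : ℕ) : ℤ) - ((n + 1 : ℕ) : ℤ) - 1) = 0 := N_low n _ (by push_cast; omega)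
      have h2 : (2 * ((0 : ℕ) : ℤ) - ((n + 1 : ℕ) : ℤ) + 1) = 2 * ((0 : ℕ) : ℤ) - n := by
        push_cast
        ring
      rw [h1, h2, ih, Nat.choose_zero_right, Nat.choose_zero_right]
    | succ m =>
      have h1 : (2 * ((m + 1 : ℕ) : ℤ) - ((n + 1 : ℕ) : ℤ) - 1) = 2 * (m : ℤ) - n := by
        push_cast
        ring
      have h2 : (2 * ((m + 1 : ℕ) : ℤ) - ((n + 1 : ℕ) : ℤ) + 1) = 2 * ((m + 1 : ℕ) : ℤ) - n := by
        push_cast
        ring
      rw [h1, h2, ih, ih, Nat.choose_succ_succ]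

open Classical in
/-- number of the paths ending at `k` which reach `h` -/
noncomputable def B (n : ℕ) (k h : ℤ) : ℕ :=
  (univ.filter (fun ε : Fin n → Bool => En ε = k ∧ ∃ l, St ε l ≤ h)).card

open Classical in
theorem B_le (n : ℕ) (k h : ℤ) : B n k h ≤ N n k := by
  unfold B N
  apply card_le_card
  intro ε hε
  rw [mem_filter] at hε ⊢
  exact ⟨mem_univ _, hε.2.1⟩

theorem ex_cons {n : ℕ} (b : Bool) (ε : Fin n → Bool) (h : ℤ) (hh : h < 0) :
    (∃ l, St (Fin.cons b ε : Fin (n + 1) → Bool) l ≤ h) ↔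
      ∃ l, St ε l ≤ h - (if b then 1 else -1) := by
  constructor
  · rintro ⟨l, hl⟩
    cases l with
    | zero =>
      rw [St_zero] at hl
      omega
    | succ l =>
      rw [St_cons] at hl
      exact ⟨l, by linarith⟩
  · rintro ⟨l, hl⟩
    refine ⟨l + 1, ?_⟩
    rw [St_cons]
    linarith

open Classical in
theorem B_succ (n : ℕ) (k h : ℤ) (hh : h < 0) :
    B (n + 1) k h = B n (k - 1) (h - 1) + B n (k + 1) (h + 1) := by
  unfold B
  rw [card_cons]
  congr 1
  · refine congrArg card (filter_congr fun ε _ => ?_)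
    rw [En_cons, ex_cons true ε h hh, if_pos rfl]
    refine and_congr ?_ Iff.rfl
    constructor <;> intro h <;> linarith
  · refine congrArg card (filter_congr fun ε _ => ?_)
    rw [En_cons, ex_cons false ε h hh, if_neg Bool.false_ne_true, sub_neg_eq_add]
    refine and_congr ?_ Iff.rfl
    constructor <;> intro h <;> linarith

open Classical in
/-- the reflection principle -/
theorem B_refl (n : ℕ) : ∀ k h : ℤ, h ≤ 0 → h ≤ k → B n k h ≤ N n (2 * h - k) := by
  induction n with
  | zero =>
    intro k h h0 hk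
    rcases eq_or_lt_of_le h0 with h1 | h1
    · rw [h1, mul_zero, zero_sub, N_neg]
      exact B_le _ _ _
    · have : B 0 k h = 0 := by
        unfold B
        rw [card_eq_zero, filter_eq_empty_iff]
        rintro ε _ ⟨_, l, hl⟩
        have h2 : St ε l = 0 := by simp [St]
        rw [h2] at hl
        omega
      rw [this]
      exact Nat.zero_le _
  | succ n ih =>
    intro k h h0 hk
    rcases eq_or_lt_of_le h0 with h1 | h1
    · rw [h1, mul_zero, zero_sub, N_neg]
      exact B_le _ _ _
    · rw [B_succ n k h h1, N_succ]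
      have h2 := ih (k - 1) (h - 1) (by omega) (by omega)
      have h3 := ih (k + 1) (h + 1) (by omega) (by omega)
      have e2 : 2 * (h - 1) - (k - 1) = 2 * h - k - 1 := by ring
      have e3 : 2 * (h + 1) - (k + 1) = 2 * h - k + 1 := by ring
      rw [e2] at h2
      rw [e3] at h3
      exact add_le_add h2 h3

theorem ratio (n m : ℕ) (hm : 2 * m ≤ n) (q : ℕ) : q ≤ m →
    n.choose (m - q) * (m + q ^ 2) ≤ n.choose m * m := by
  induction q with
  | zero =>
    intro _
    simp
  | succ q ih =>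
    intro hq
    have ih' := ih (by omega)
    obtain ⟨r, hr⟩ : ∃ r, m = q + 1 + r := ⟨m - (q + 1), by omega⟩
    have e1 : m - (q + 1) = r := by omega
    have e2 : m - q = r + 1 := by omega
    rw [e2] at ih'
    rw [e1]
    have h1 : n.choose (r + 1) * (r + 1) = n.choose r * (n - r) := Nat.choose_succ_right_eq n r
    obtain ⟨X, hX⟩ : ∃ X, X = n.choose r := ⟨_, rfl⟩
    obtain ⟨X', hX'⟩ : ∃ X', X' = n.choose (r + 1) := ⟨_, rfl⟩
    obtain ⟨Y, hY⟩ : ∃ Y, Y = n.choose m * m := ⟨_, rfl⟩
    rw [← hX, ← hX'] at h1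
    rw [← hX', ← hY] at ih'
    rw [← hX, ← hY]
    have h2 : X * (m + q + 1) ≤ X' * (r + 1) := by
      rw [h1]
      exact Nat.mul_le_mul_left X (by omega)
    have h3 : X * (m + q + 1) * (m + q ^ 2) ≤ Y * (r + 1) := by
      calc X * (m + q + 1) * (m + q ^ 2) ≤ X' * (r + 1) * (m + q ^ 2) :=
            Nat.mul_le_mul_right _ h2
        _ = X' * (m + q ^ 2) * (r + 1) := by ring
        _ ≤ Y * (r + 1) := Nat.mul_le_mul_right _ ih'
    have h4 : (r + 1) * (m + (q + 1) ^ 2) ≤ (m + q + 1) * (m + q ^ 2) := by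
      rw [hr]
      nlinarith [Nat.zero_le (q ^ 3), Nat.zero_le (q ^ 2), Nat.zero_le q, Nat.zero_le r]
    have h5 : X * (m + (q + 1) ^ 2) * (r + 1) ≤ Y * (r + 1) := by
      calc X * (m + (q + 1) ^ 2) * (r + 1) = X * ((r + 1) * (m + (q + 1) ^ 2)) := by ring
        _ ≤ X * ((m + q + 1) * (m + q ^ 2)) := Nat.mul_le_mul_left X h4
        _ = X * (m + q + 1) * (m + q ^ 2) := by ring
        _ ≤ Y * (r + 1) := h3
    exact Nat.le_of_mul_le_mul_right h5 (Nat.succ_pos r)

theorem half (n m q : ℕ) (hm : 2 * m ≤ n) (hq : n ≤ q ^ 2) (hq1 : 1 ≤ q) (j : ℤ)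
    (hj : j = 2 * m - n) : 2 * N n (j - 2 * q) ≤ N n j := by
  subst hj
  rw [N_choose]
  by_cases h : q ≤ m
  · have e1 : (2 * (m : ℤ) - n - 2 * q) = 2 * ((m - q : ℕ) : ℤ) - n := by
      rw [Nat.cast_sub h]
      ring
    rw [e1, N_choose]
    have h1 := ratio n m hm q h
    have hm0 : 0 < m := by omega
    have h2 : (2 * n.choose (m - q)) * m ≤ n.choose m * m := by
      calc (2 * n.choose (m - q)) * m = n.choose (m - q) * (m + m) := by ring
        _ ≤ n.choose (m - q) * (m + q ^ 2) := Nat.mul_le_mul_left _ (by omega)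
        _ ≤ _ := h1
    exact Nat.le_of_mul_le_mul_right h2 hm0
  · rw [N_low n _ (by omega)]
    exact Nat.zero_le _

open Classical in
theorem gp_reflect : Pool.Agent.H174.GP.S_reflect := by
  intro n a k hk hpar ha
  -- the bad paths
  have hk1 := abs_le.1 hk
  obtain ⟨h, hh⟩ : ∃ h : ℤ, h = min 0 k - a - 1 := ⟨_, rfl⟩
  have hh0 : h ≤ 0 := by
    have := min_le_left 0 k
    omega
  have hhk : h ≤ k := by
    have := min_le_right 0 k
    omega
  have h1 := B_refl n k h hh0 hhk
  have h2 : 2 * N n (2 * h - k) ≤ N n k := by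
    have hq : n ≤ (a + 1) ^ 2 := ha.trans (Nat.pow_le_pow_left (Nat.le_succ a) 2)
    rcases le_total 0 k with h0 | h0
    · obtain ⟨t, ht⟩ := hpar
      have hm : ∃ m : ℕ, (m : ℤ) = n - t := ⟨((n : ℤ) - t).toNat, Int.toNat_of_nonneg (by omega)⟩
      obtain ⟨m, hm⟩ := hm
      have h3 := half n m (a + 1) (by omega) hq (by omega) (-k) (by omega)
      rw [N_neg] at h3
      have e1 : -k - 2 * ((a + 1 : ℕ) : ℤ) = 2 * h - k := by
        rw [hh, min_eq_left h0]
        push_cast
        ring
      rw [e1] at h3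
      exact h3
    · obtain ⟨t, ht⟩ := hpar
      have hm : ∃ m : ℕ, (m : ℤ) = t := ⟨t.toNat, Int.toNat_of_nonneg (by omega)⟩
      obtain ⟨m, hm⟩ := hm
      have h3 := half n m (a + 1) (by omega) hq (by omega) k (by omega)
      have e1 : k - 2 * ((a + 1 : ℕ) : ℤ) = 2 * h - k := by
        rw [hh, min_eq_right h0]
        push_cast
        ring
      rw [e1] at h3
      exact h3
  have h3 : N n k = (univ.filter (fun ε : Fin n → Bool => En ε = k ∧
      ∀ l : ℕ, min 0 k - a ≤ St ε l)).card + B n k h := by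
    unfold N B
    rw [← filter_filter, ← filter_filter (p := fun ε : Fin n → Bool => En ε = k)]
    have e1 : (univ.filter (fun ε : Fin n → Bool => En ε = k)).filter
        (fun ε => ∃ l, St ε l ≤ h) =
        (univ.filter (fun ε : Fin n → Bool => En ε = k)).filter
        (fun ε => ¬ ∀ l : ℕ, min 0 k - a ≤ St ε l) := by
      refine filter_congr fun ε _ => ?_
      rw [not_forall]
      constructor
      · rintro ⟨l, hl⟩
        exact ⟨l, by omega⟩
      · rintro ⟨l, hl⟩
        exact ⟨l, by omega⟩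
    rw [e1, card_filter_add_card_filter_not]
  have h4 : N n k ≤ 2 * (univ.filter (fun ε : Fin n → Bool => En ε = k ∧
      ∀ l : ℕ, min 0 k - a ≤ St ε l)).card := by
    omega
  have h5 : (N n k : ℝ) ≤ 2 * ((univ.filter (fun ε : Fin n → Bool => En ε = k ∧
      ∀ l : ℕ, min 0 k - a ≤ St ε l)).card : ℝ) := by exact_mod_cast h4
  exact h5

end Pool.Agent.H874.GP174
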